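import Pool.Agent.Y245.SC.Stm

/-! Segment integrals in convex sets (helper87, project SC). -/

set_option autoImplicit false

open Complex MeasureTheory Metric Set Filter Topology

namespace Pool.Agent.Y87.SC.Seg

open Pool.Agent.Y245.SC

/-- the form `g(z) dz` -/
noncomputable def om (g : ℂ → ℂ) (x : ℂ) : ℂ →L[ℂ] ℂ := g x • ContinuousLinearMap.id ℂ ℂ

/-- its derivative -/
noncomputable def dom (g : ℂ → ℂ) (x : ℂ) : ℂ →L[ℝ] ℂ →L[ℂ] ℂ :=
  ((ContinuousLinearMap.toSpanSingleton ℂ
    ((deriv g x) • ContinuousLinearMap.id ℂ ℂ) : ℂ →L[ℂ] ℂ →L[ℂ] ℂ)).restrictScalars ℝ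

lemma seg_eq (g : ℂ → ℂ) (p q : ℂ) : seg g p q = curveIntegral (om g) (.segment p q) := by
  rw [curveIntegral_segment]
  unfold seg
  refine intervalIntegral.integral_congr fun t _ => ?_
  simp only [om, smul_apply, ContinuousLinearMap.id_apply, smul_eq_mul,
    AffineMap.lineMap_apply_module']
  congr 2
  rw [add_comm]
  congr 1

theorem seg_thm : S_SEG := by
  intro S g hS hc hg
  have h1 : ∀ x ∈ S, HasFDerivWithinAt (om g) (dom g x) S x := by
    intro x hx
    have h2 : HasDerivAt g (deriv g x) x := ((hg x hx).differentiableAt (hS.mem_nhds hx)).hasDerivAt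
    have h3 : HasDerivAt (om g) ((deriv g x) • ContinuousLinearMap.id ℂ ℂ) x :=
      h2.smul_const (ContinuousLinearMap.id ℂ ℂ)
    exact (h3.hasFDerivAt.restrictScalars ℝ).hasFDerivWithinAt
  have h2 : ∀ a ∈ S, ∀ x ∈ tangentConeAt ℝ S a, ∀ y ∈ tangentConeAt ℝ S a,
      dom g a x y = dom g a y x := by
    intro a _ x _ y _
    simp [dom]
    ring
  constructor
  · intro p hp q hq s hs
    rw [seg_eq, seg_eq, seg_eq]
    exact hc.curveIntegral_segment_add_eq_of_hasFDerivWithinAt_symmetric h1 h2 hp hq hs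
  · intro p hp q hq
    have h3 := hc.hasFDerivWithinAt_curveIntegral_segment_of_hasFDerivWithinAt_symmetric h1 h2 hp hq
    have h4 := (h3.hasFDerivAt (hS.mem_nhds hq)).hasDerivAt
    have h5 : (fun x => seg g p x) = fun x => curveIntegral (om g) (.segment p x) := by
      funext x
      exact seg_eq g p x
    rw [h5]
    have h6 : om g q 1 = g q := by simp [om]
    rw [h6] at h4
    exact h4

end Pool.Agent.Y87.SC.Seg
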