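import Pool.Agent.Y624.SC.Stm2
import Pool.Agent.Y43.SC.AVG

/-!
The case of equality in the average over permutations (part S_RIG1 of project SC of helper624; after
the proof of helper43 of S_AVG).
-/

set_option autoImplicit false

namespace Pool.Agent.Y87.SC

open Finset Pool.Agent.Y43.SC
open scoped RealInnerProductSpace

theorem exists_perm {n : ℕ} (A B I J : Finset (Fin n)) (hAB : Disjoint A B) (hIJ : Disjoint I J)
    (hA : A.card = I.card) (hB : B.card = J.card) :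
    ∃ σ : Equiv.Perm (Fin n), A.map σ.toEmbedding = I ∧ B.map σ.toEmbedding = J := by
  classical
  let f : Fin n → Fin 3 := fun a => if a ∈ A then 0 else if a ∈ B then 1 else 2
  let g : Fin n → Fin 3 := fun a => if a ∈ I then 0 else if a ∈ J then 1 else 2
  have hf0 : ∀ a, f a = 0 ↔ a ∈ A := by
    intro a
    simp only [f]
    split_ifs with h1 h2 <;> simp [h1]
  have hf1 : ∀ a, f a = 1 ↔ a ∈ B := by
    intro a
    simp only [f]
    split_ifs with h1 h2
    · simp [Finset.disjoint_left.1 hAB h1]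
    · simp [h2]
    · simp [h2]
  have hg0 : ∀ a, g a = 0 ↔ a ∈ I := by
    intro a
    simp only [g]
    split_ifs with h1 h2 <;> simp [h1]
  have hg1 : ∀ a, g a = 1 ↔ a ∈ J := by
    intro a
    simp only [g]
    split_ifs with h1 h2
    · simp [Finset.disjoint_left.1 hIJ h1]
    · simp [h2]
    · simp [h2]
  have hf2 : ∀ a, f a = 2 ↔ a ∈ (A ∪ B)ᶜ := by
    intro a
    rw [mem_compl, mem_union, not_or]
    simp only [f]
    split_ifs with h1 h2 <;> simp [*]
  have hg2 : ∀ a, g a = 2 ↔ a ∈ (I ∪ J)ᶜ := by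
    intro a
    rw [mem_compl, mem_union, not_or]
    simp only [g]
    split_ifs with h1 h2 <;> simp [*]
  have hcard : ∀ c : Fin 3, Fintype.card {a // f a = c} = Fintype.card {a // g a = c} := by
    intro c
    rw [Fintype.card_subtype, Fintype.card_subtype]
    fin_cases c
    · have h1 : (univ.filter fun a => f a = 0) = A := by ext a; simp [hf0]
      have h2 : (univ.filter fun a => g a = 0) = I := by ext a; simp [hg0]
      exact (congrArg card h1).trans (hA.trans (congrArg card h2).symm)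
    · have h1 : (univ.filter fun a => f a = 1) = B := by ext a; simp [hf1]
      have h2 : (univ.filter fun a => g a = 1) = J := by ext a; simp [hg1]
      exact (congrArg card h1).trans (hB.trans (congrArg card h2).symm)
    · have h1 : (univ.filter fun a => f a = 2) = (A ∪ B)ᶜ := by
        ext a; rw [mem_filter, hf2]; simp
      have h2 : (univ.filter fun a => g a = 2) = (I ∪ J)ᶜ := by
        ext a; rw [mem_filter, hg2]; simp
      refine (congrArg card h1).trans (Eq.trans ?_ (congrArg card h2).symm)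
      rw [card_compl, card_compl, card_union_of_disjoint hAB, card_union_of_disjoint hIJ, hA, hB]
  let e : ∀ c : Fin 3, {a // f a = c} ≃ {a // g a = c} := fun c =>
    Fintype.equivOfCardEq (hcard c)
  let σ : Equiv.Perm (Fin n) := Equiv.ofFiberEquiv e
  have hσ : ∀ a, g (σ a) = f a := fun a => Equiv.ofFiberEquiv_map e a
  refine ⟨σ, ?_, ?_⟩
  · refine Finset.eq_of_subset_of_card_le ?_ (by rw [card_map, hA])
    intro b hb
    obtain ⟨a, ha, rfl⟩ := Finset.mem_map.1 hb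
    exact (hg0 _).1 ((hσ a).trans ((hf0 a).2 ha))
  · refine Finset.eq_of_subset_of_card_le ?_ (by rw [card_map, hB])
    intro b hb
    obtain ⟨a, ha, rfl⟩ := Finset.mem_map.1 hb
    exact (hg1 _).1 ((hσ a).trans ((hf1 a).2 ha))

theorem done : Pool.Agent.Y624.SC.S_RIG1 := by
  intro d k hk hkd v hv H I J hIJ hI hJ
  have hd0 : (0 : ℝ) < d := by
    have : 0 < d := by omega
    exact_mod_cast this
  obtain ⟨x, hx⟩ : ∃ x : ℝ, x = k := ⟨_, rfl⟩
  obtain ⟨m, hm⟩ : ∃ m : ℝ, m = (d : ℝ) - k := ⟨_, rfl⟩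
  have hx0 : 0 < x := by
    rw [hx]
    exact_mod_cast hk
  have hm0 : 0 < m := by
    rw [hm]
    have : (k : ℝ) < d := by exact_mod_cast hkd
    linarith
  have hdm : (d : ℝ) = x + m := by rw [hx, hm]; ring
  have hm' : m = (d : ℝ) - x := by rw [hm, hx]
  -- the average square
  set W : ℝ := G v 0 0 with hW
  have hoff : ∀ a b : Fin (d + 1), b ≠ a → G v a b = -(W / d) := by
    intro a b hab
    have := G_off v hv hab
    rw [← hW] at this
    field_simp
    linarith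
  -- the places
  let q : Fin (d + 1) := ⟨k, by omega⟩
  let A : Finset (Fin (d + 1)) := Finset.Iio q
  let B : Finset (Fin (d + 1)) := Finset.Ico q (Fin.last d)
  have hA : (A.card : ℝ) = x := by
    rw [hx, Fin.card_Iio]
  have hB : (B.card : ℝ) = m := by
    rw [hm, Fin.card_Ico]
    have : ((Fin.last d : Fin (d + 1)) : ℕ) - (q : ℕ) = d - k := rfl
    rw [this, Nat.cast_sub hkd.le]
  have hAB : Disjoint A B := by
    rw [Finset.disjoint_left]
    intro a ha hb
    have h1 := Finset.mem_Iio.1 ha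
    have h2 := (Finset.mem_Ico.1 hb).1
    exact absurd h1 (not_lt.2 h2)
  have hself : ∀ S : Finset (Fin (d + 1)), ∑ a ∈ S, ∑ b ∈ S, G v a b =
      (S.card : ℝ) * ((d : ℝ) - S.card + 1) * (W / d) := by
    intro S
    have h1 : ∀ a ∈ S, ∑ b ∈ S, G v a b = W + ((S.card : ℝ) - 1) * (-(W / d)) := by
      intro a ha
      rw [← Finset.add_sum_erase S _ ha, G_self, ← hW,
        Finset.sum_congr rfl (fun b hb => hoff a b (Finset.ne_of_mem_erase hb)), Finset.sum_const,
        Finset.card_erase_of_mem ha, nsmul_eq_mul]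
      have : 1 ≤ S.card := Finset.card_pos.2 ⟨a, ha⟩
      push_cast [Nat.cast_sub this]
      ring
    rw [Finset.sum_congr rfl h1, Finset.sum_const, nsmul_eq_mul]
    have hWd : W = d * (W / d) := by rw [mul_div_cancel₀ _ hd0.ne']
    linear_combination (S.card : ℝ) * hWd
  have hcross : ∑ a ∈ A, ∑ b ∈ B, G v a b = -(x * m * (W / d)) := by
    rw [Finset.sum_congr rfl (fun a ha => Finset.sum_congr rfl (fun b hb =>
      hoff a b (fun h => (Finset.disjoint_left.1 hAB ha) (h ▸ hb))))]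
    rw [Finset.sum_const, Finset.sum_const, nsmul_eq_mul, nsmul_eq_mul, hA, hB]
    ring
  let X : Equiv.Perm (Fin (d + 1)) → EuclideanSpace ℝ (Fin d) := fun σ => ∑ a ∈ A, v (σ a)
  let Y : Equiv.Perm (Fin (d + 1)) → EuclideanSpace ℝ (Fin d) := fun σ => ∑ a ∈ B, v (σ a)
  have sXX : ∑ σ, ‖X σ‖ ^ 2 = x * (m + 1) * (W / d) := by
    have h1 := G_finsets v A A
    rw [hself, hA] at h1
    rw [Finset.sum_congr rfl (fun σ _ => (real_inner_self_eq_norm_sq (X σ)).symm)]
    rw [h1, hdm]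
    ring
  have sYY : ∑ σ, ‖Y σ‖ ^ 2 = m * (x + 1) * (W / d) := by
    have h1 := G_finsets v B B
    rw [hself, hB] at h1
    rw [Finset.sum_congr rfl (fun σ _ => (real_inner_self_eq_norm_sq (Y σ)).symm)]
    rw [h1, hdm]
    ring
  have sXY : ∑ σ, (⟪X σ, Y σ⟫ : ℝ) = -(x * m * (W / d)) := by
    have h1 := G_finsets v A B
    rw [hcross] at h1
    exact h1
  -- the constants
  obtain ⟨c, hc⟩ : ∃ c : ℝ, c = √((k : ℝ) * (d - k) / (((k : ℝ) + 1) * (d - k + 1))) := ⟨_, rfl⟩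
  have hc2 : c ^ 2 = x * m / ((x + 1) * (m + 1)) := by
    rw [hc, ← hx, ← hm', Real.sq_sqrt (by positivity)]
  have hc0 : 0 < c := by
    rw [hc, ← hx, ← hm']
    exact Real.sqrt_pos.2 (by positivity)
  obtain ⟨t, ht⟩ : ∃ t : ℝ, t = x * m / (c * (x * (m + 1))) := ⟨_, rfl⟩
  have ht0 : 0 < t := by rw [ht]; positivity
  have e1 : c * t * (x * (m + 1)) = x * m := by
    rw [ht]
    field_simp
  have e2 : c * (m * (x + 1)) / t = x * m := by
    rw [ht]
    have h1 : c * (m * (x + 1)) / (x * m / (c * (x * (m + 1)))) =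
        c ^ 2 * ((m * (x + 1)) * (x * (m + 1))) / (x * m) := by
      field_simp
    rw [h1, hc2]
    field_simp
  have hsum : ∑ σ, ((⟪X σ, Y σ⟫ : ℝ) + c / 2 * (t * ‖X σ‖ ^ 2 + ‖Y σ‖ ^ 2 / t)) = 0 := by
    rw [Finset.sum_add_distrib, ← Finset.mul_sum, Finset.sum_add_distrib, ← Finset.mul_sum,
      ← Finset.sum_div, sXX, sYY, sXY]
    have h1 : c / 2 * (t * (x * (m + 1) * (W / d)) + m * (x + 1) * (W / d) / t) =
        (c * t * (x * (m + 1)) + c * (m * (x + 1)) / t) * (W / d) / 2 := by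
      field_simp
    rw [h1, e1, e2]
    ring
  have hAc : A.card = k := by
    have h1 : (A.card : ℝ) = (k : ℕ) := by rw [hA, hx]
    exact_mod_cast h1
  have hBc : B.card = d - k := by
    have h1 : (B.card : ℝ) = ((d - k : ℕ) : ℝ) := by rw [hB, hm, Nat.cast_sub hkd.le]
    exact_mod_cast h1
  have hIv : ∀ σ : Equiv.Perm (Fin (d + 1)), ∑ a ∈ A.map σ.toEmbedding, v a = X σ := by
    intro σ
    rw [Finset.sum_map]
    rfl
  have hJv : ∀ σ : Equiv.Perm (Fin (d + 1)), ∑ a ∈ B.map σ.toEmbedding, v a = Y σ := by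
    intro σ
    rw [Finset.sum_map]
    rfl
  have hin : ∀ σ, -c * (‖X σ‖ * ‖Y σ‖) ≤ (⟪X σ, Y σ⟫ : ℝ) := by
    intro σ
    have h1 := H (A.map σ.toEmbedding) (B.map σ.toEmbedding)
      ((Finset.disjoint_map σ.toEmbedding).2 hAB) (by rw [card_map, hAc]) (by rw [card_map, hBc])
    rw [hIv, hJv, ← hc] at h1
    exact h1
  have hamgm : ∀ σ, t * ‖X σ‖ ^ 2 + ‖Y σ‖ ^ 2 / t - 2 * (‖X σ‖ * ‖Y σ‖) =
        (t * ‖X σ‖ - ‖Y σ‖) ^ 2 / t := by
    intro σ
    field_simp
    ring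
  have hge : ∀ σ, c / 2 * ((t * ‖X σ‖ - ‖Y σ‖) ^ 2 / t) ≤
      (⟪X σ, Y σ⟫ : ℝ) + c / 2 * (t * ‖X σ‖ ^ 2 + ‖Y σ‖ ^ 2 / t) := by
    intro σ
    have h1 := hin σ
    have h2 := hamgm σ
    have h3 : c / 2 * ((t * ‖X σ‖ - ‖Y σ‖) ^ 2 / t) = c / 2 * (t * ‖X σ‖ ^ 2 + ‖Y σ‖ ^ 2 / t) -
        c * (‖X σ‖ * ‖Y σ‖) := by
      rw [← h2]
      ring
    rw [h3]
    linarith
  have hnn : ∀ σ, 0 ≤ c / 2 * ((t * ‖X σ‖ - ‖Y σ‖) ^ 2 / t) := by
    intro σ
    positivity
  obtain ⟨σ, hσI, hσJ⟩ := exists_perm A B I J hAB hIJ (by rw [hAc, hI]) (by rw [hBc, hJ])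
  have hz := (Finset.sum_eq_zero_iff_of_nonneg (fun σ _ => (hnn σ).trans (hge σ))).1 hsum σ
    (Finset.mem_univ σ)
  have hz2 : c / 2 * ((t * ‖X σ‖ - ‖Y σ‖) ^ 2 / t) = 0 :=
    le_antisymm (hz ▸ hge σ) (hnn σ)
  have hz3 : t * ‖X σ‖ - ‖Y σ‖ = 0 := by
    rcases mul_eq_zero.1 hz2 with h | h
    · exact absurd h (by positivity)
    · rcases div_eq_zero_iff.1 h with h | h
      · exact pow_eq_zero_iff (two_ne_zero) |>.1 h
      · exact absurd h ht0.ne'
  rw [← hσI, ← hσJ, hIv, hJv, ← hx, ← hm']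
  have hY : ‖Y σ‖ = t * ‖X σ‖ := by linarith
  have ht2 : t ^ 2 * (x * (m + 1)) = m * (x + 1) := by
    have h1 : t ^ 2 * (x * (m + 1)) = (x * m) ^ 2 / (c ^ 2 * (x * (m + 1))) := by
      rw [ht]
      field_simp
    rw [h1, hc2]
    field_simp
  rw [hY]
  linear_combination ‖X σ‖ ^ 2 * ht2

end Pool.Agent.Y87.SC
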